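import Pool.Agent.Helper11.TU.FIN
import Pool.Agent.Helper11.TU.FINAL
import Pool.Agent.Helper31.TU.MOVE2
import Pool.Agent.Helper18.TU.PHI1
import Pool.Agent.Helper21.TU.CYCB
import Pool.Agent.Helper21.TU.TOR
import Pool.Agent.Helper22.TU.NODE1
import Pool.Agent.Helper32.TU.PIT
import Pool.Agent.Helper38.TU.CYCU
import Pool.Agent.Helper42.TU.LocalAux
import Pool.Agent.Helper42.TU.UnivAux
import Pool.Agent.Helper50.TU.PHI2
import Pool.Agent.Helper51.TU.SPAN
import Pool.Agent.Helper60.TU.EVEN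
import Pool.Agent.Helper62.TU.OP
import Pool.Agent.Helper64.TU.LBD
import Pool.Agent.Helper83.TU.DG
import Pool.Agent.Helper96.TU.COMPL
import Pool.Agent.Helper96.TU.GLOB
import Pool.Agent.Helper96.TU.NODE2

/-!
# Assembly of the TU modules
-/

namespace GWA

open NumberField IsDedekindDomain

theorem phi_lower (n : GaussianInt) (hn : n ≠ 0) (q g B : ℕ) (hN : n.norm.natAbs ≤ 3 * q ^ g)
    (hB : 8 * g + 2 ≤ B) (hq1 : B ^ 4 ≤ q) (hq2 : q < (B + 1) ^ 4) :
    n.norm.natAbs ≤ 2 * B ^ 2 * Nat.card (GaussianInt ⧸ Ideal.span {n})ˣ :=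
  phi_lower_of units_count n hn q g B hN hB hq1 hq2

section Cyc

variable {K : Type} [NormedField K] [Algebra GaussianInt K] [NeZero (2 : K)] [DecidableEq K]
  {π : GaussianInt} {k : Type} [Field k] [Algebra GaussianInt k] {r : K → k}

theorem LHU.cycU (h : LHU K π) (hr : RMap K k r) [Finite k] {d : Kˣ} (hd : ‖(d : K)‖ = 1) :
    ∃ (g : E (d : K)) (n : GaussianInt), n ≠ 0 ∧ ¬ π ∣ n ∧
      (∀ P : E (d : K), ∃ α : GaussianInt, P - α • g ∈ nb π (d : K) 0) ∧
      (∀ α : GaussianInt, α • g ∈ nb π (d : K) 0 ↔ n ∣ α) ∧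
      n.norm.natAbs = Nat.card (h.QM d) :=
  h.cycU_of (h.card_QMU hr d).1 (fun _ hl hπ => h.card_torsU hr d hl hπ)
    (fun _ hP => h.pi_tors hr hd hP)

theorem LHU.genU (h : LHU K π) (hr : RMap K k r) [Finite k] {d : Kˣ} (hd : ‖(d : K)‖ = 1) :
    ∃ (g : E (d : K)) (n : GaussianInt), Gen π d g n ∧ n.norm.natAbs = Nat.card (h.QM d) :=
  h.genU_of (h.cycU hr hd) (fun P h0 hP => h.complete_nb hd P h0 hP)

end Cyc

section UnivLocal

variable {K : Type} [NormedField K] [Algebra GaussianInt K] [NeZero (2 : K)] [DecidableEq K]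
  {π : GaussianInt} {k : Type} [Field k] [Algebra GaussianInt k] {r : K → k}
  {A : (d : Kˣ) → E (d : K) → E (d : K) → Prop}

theorem MSt.univ_unit (hA : MSt π A) (h : LHU K π) (hr : RMap K k r) {d : Kˣ}
    (hd : ‖(d : K)‖ = 1) {g : E (d : K)} {n : GaussianInt} (hg : Gen π d g n)
    (hs : SpanTop r d g n) (P Q : E (d : K)) : A d P Q :=
  MSt.univ_aux hA h hg (fun _ _ _ hP hQ => dg_add h hr hd hP hQ) (fun _ _ hP => dg_neg h hr hd hP)
    (fun _ _ hP => dg_eq_zero h hr hd hP)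
    (fun _ _ _ hR hε hε' hRA => hA.op h hg.ndvd hR hε hε' hRA)
    (fun _ _ hε _ _ hl hl' hlm c hεA => hA.move1 h hr hd hg hs hε hl hl' hlm c hεA)
    (fun _ _ _ _ hl hl' hne hlm c c' hεA => hA.move2 h hr hd hg hs hl hl' hne hlm c c' hεA) P Q

/-- the local theorem -/
theorem MSt.local_univ (hA : MSt π A) (h : LHU K π) (hr : RMap K k r) [Finite k] (g B : ℕ)
    (hg : 1 ≤ g) (hcard : Nat.card k = π.norm.natAbs ^ g) (hB : 8 * g + 2 ≤ B)
    (hq1 : B ^ 4 ≤ π.norm.natAbs) (hq2 : π.norm.natAbs < (B + 1) ^ 4) (d : Kˣ)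
    (P Q : E (d : K)) : A d P Q := by
  have hB4 : 10 ^ 4 ≤ B ^ 4 := Nat.pow_le_pow_left (by omega) 4
  have hq : 10 ^ 4 ≤ π.norm.natAbs := le_trans hB4 hq1
  have h3 : ¬ π ∣ 3 := local_not_dvd_three (by omega)
  have hqQ : π.norm.natAbs ≤ Nat.card k := by
    rw [hcard]
    calc π.norm.natAbs = π.norm.natAbs ^ 1 := (pow_one _).symm
      _ ≤ π.norm.natAbs ^ g := Nat.pow_le_pow_right (by omega) hg
  refine MSt.local_aux h ?_ ?_ ?_ d P Q
  · intro d hd P Q
    obtain ⟨g0, n, hg0, hn⟩ := h.genU hr hd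
    have h4 := (h.card_QMU hr d).2
    have h5 := h.card_lower hr hd (by omega)
    rw [← hn] at h4 h5
    obtain ⟨h6, h7⟩ := local_numerics π.norm.natAbs g B (Nat.card k) n.norm.natAbs
      (Nat.card (GaussianInt ⧸ Ideal.span {n})ˣ) hg hcard hB hq1 h4 h5
      (fun h8 => phi_lower n hg0.ne π.norm.natAbs g B h8 hB hq1 hq2)
    exact hA.univ_unit h hr hd hg0 (h.span_top hr h3 hd hg0 h6 h7) P Q
  · exact fun hunit d m hm P Q => hA.univ_even h hunit d m hm P Q
  · intro heven d ε ε' hε hε' κ μ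
    exact hA.node_all h hr (by omega)
      (fun d ε ε' hε hε' hne hne' h1 h4 h5 h6 => hA.node_gen h h3 heven d hε hε' hne hne' h1 h4 h5 h6)
      d hε hε' κ μ

end UnivLocal

end GWA

namespace GWA

open NumberField IsDedekindDomain

theorem finite_bad {L : Type} [Field L] [NumberField L] [Algebra GaussianInt L] (M : ℕ) :
    {v : HeightOneSpectrum (𝓞 L) | ¬ ∃ π : GaussianInt, UPl v π ∧ M ≤ π.norm.natAbs}.Finite :=
  finite_bad_aux M

end GWA

namespace KumK3

open NumberField IsDedekindDomain GWA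

theorem final_TU (L : Type) [Field L] [NumberField L] (i : L) (hi : i ^ 2 = -1) :
    {v : HeightOneSpectrum (𝓞 L) |
      ¬ DenseRange (X.map (algebraMap L (v.adicCompletion L)))}.Finite := by
  let _ : Algebra GaussianInt L := giAlg i hi
  exact final_TU_alg L UPl (fun v π h => h.lhu) (fun v π h => h.exists_rmap) finite_bad
    dense_one (fun hA h hr _ g B h1 h2 h3 h4 h5 => hA.local_univ h hr g B h1 h2 h3 h4 h5)

end KumK3
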