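import Pool.Agent.Helper9.GWA.FINB
import Pool.Agent.Helper37.GWA.RSD
import Pool.Agent.Helper26.GWA.RESB

/-!
# Local fields with uniformizer `π` and arbitrary residue field

`LHU F π`: the hypotheses `LocHyp F π` without the condition on the residue field; `π` prime to 2.
The lemmas are those of the modules LB, FINB, RSD, RESB.
-/

namespace GWA

/-- Hypotheses on a completion of a number field containing `ℚ(i)` at a place unramified over
`ℚ(i)`, with prime element `π` -/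
structure LHU (K : Type) [NormedField K] [Algebra GaussianInt K] (π : GaussianInt) : Prop where
  prime : Prime π
  odd : ¬ π ∣ 2
  ultra : ∀ x y : K, ‖x + y‖ ≤ max ‖x‖ ‖y‖
  complete : CompleteSpace K
  char0 : CharZero K
  /-- `π` has absolute value less than one -/
  norm_pi : ‖algebraMap GaussianInt K π‖ < 1
  /-- `π` is a uniformizer -/
  unif : ∀ x : K, x ≠ 0 → ∃ n : ℤ, ‖x‖ = ‖algebraMap GaussianInt K π‖ ^ n

namespace LHU

variable {K : Type} [NormedField K] [Algebra GaussianInt K] {π : GaussianInt} (h : LHU K π)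

include h

theorem norm_sub_le (x y : K) : ‖x - y‖ ≤ max ‖x‖ ‖y‖ := by
  have := h.ultra x (-y)
  rwa [norm_neg, ← sub_eq_add_neg] at this

theorem norm_sum_eq {x y : K} (hxy : ‖y‖ < ‖x‖) : ‖x + y‖ = ‖x‖ := by
  apply le_antisymm
  · exact (h.ultra x y).trans (by rw [max_eq_left hxy.le])
  · have h1 := h.norm_sub_le (x + y) y
    rw [add_sub_cancel_right] at h1
    rcases le_max_iff.1 h1 with h2 | h2
    · exact h2
    · exact absurd hxy (not_lt.2 h2)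

theorem norm_natCast_le (n : ℕ) : ‖(n : K)‖ ≤ 1 := by
  induction n with
  | zero => simp
  | succ n ih =>
    push_cast
    refine (h.ultra _ _).trans ?_
    rw [norm_one]
    exact max_le ih le_rfl

theorem norm_intCast_le (n : ℤ) : ‖(n : K)‖ ≤ 1 := by
  obtain ⟨m, rfl | rfl⟩ := Int.eq_nat_or_neg n
  · rw [Int.cast_natCast]; exact h.norm_natCast_le m
  · rw [Int.cast_neg, norm_neg, Int.cast_natCast]; exact h.norm_natCast_le m

omit h in
theorem norm_II (K : Type) [NormedField K] [Algebra GaussianInt K] : ‖II K‖ = 1 := by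
  have h1 := congrArg norm (II_sq K)
  rw [norm_pow, norm_neg, norm_one] at h1
  have h2 := norm_nonneg (II K)
  nlinarith

omit h in
theorem algebraMap_eq (a : GaussianInt) : algebraMap GaussianInt K a = a.re + a.im * II K := by
  have : a = (a.re : GaussianInt) + (a.im : GaussianInt) * ⟨0, 1⟩ := by
    ext <;> simp
  conv_lhs => rw [this]
  rw [map_add, map_mul, map_intCast, map_intCast]
  rfl

theorem norm_O_le (a : GaussianInt) : ‖algebraMap GaussianInt K a‖ ≤ 1 := by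
  rw [algebraMap_eq]
  refine (h.ultra _ _).trans (max_le (h.norm_intCast_le _) ?_)
  rw [norm_mul, norm_II, mul_one]
  exact h.norm_intCast_le _

theorem norm_eq_one {a : GaussianInt} (ha : ¬ π ∣ a) : ‖algebraMap GaussianInt K a‖ = 1 := by
  apply le_antisymm (h.norm_O_le a)
  by_contra hlt
  push Not at hlt
  obtain ⟨u, v, huv⟩ : IsCoprime π a := (h.prime.irreducible.coprime_iff_not_dvd).2 ha
  have h1 := congrArg (fun z => ‖algebraMap GaussianInt K z‖) huv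
  simp only [map_add, map_mul, map_one, norm_one] at h1
  have h2 := h.ultra (algebraMap GaussianInt K u * algebraMap GaussianInt K π)
    (algebraMap GaussianInt K v * algebraMap GaussianInt K a)
  rw [h1, norm_mul, norm_mul] at h2
  have h3 := h.norm_O_le u
  have h4 := h.norm_O_le v
  have h5 := h.norm_pi
  rcases le_max_iff.1 h2 with h6 | h6
  · nlinarith [norm_nonneg (algebraMap GaussianInt K u), norm_nonneg (algebraMap GaussianInt K π)]
  · nlinarith [norm_nonneg (algebraMap GaussianInt K v), norm_nonneg (algebraMap GaussianInt K a)]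

theorem norm_lt_one_iff (a : GaussianInt) : ‖algebraMap GaussianInt K a‖ < 1 ↔ π ∣ a := by
  constructor
  · intro h1
    by_contra h2
    rw [h.norm_eq_one h2] at h1
    exact lt_irrefl _ h1
  · rintro ⟨b, rfl⟩
    rw [map_mul, norm_mul]
    have h3 := h.norm_O_le b
    have h5 := h.norm_pi
    nlinarith [norm_nonneg (algebraMap GaussianInt K b), norm_nonneg (algebraMap GaussianInt K π)]

theorem norm_ofNat_le (n : ℕ) [n.AtLeastTwo] : ‖(OfNat.ofNat n : K)‖ ≤ 1 := by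
  have := h.norm_natCast_le (OfNat.ofNat n)
  rwa [Nat.cast_ofNat] at this

theorem norm_two (h2 : ¬ π ∣ 2) : ‖(2 : K)‖ = 1 := by
  have := h.norm_eq_one h2
  rwa [map_ofNat] at this

theorem pi_ne : algebraMap GaussianInt K π ≠ 0 := by
  intro h0
  -- the value group would be trivial
  have := h.char0
  obtain ⟨n, hn⟩ := h.unif 1 one_ne_zero
  have hinj : ∀ m : ℤ, (m : K) = 0 → m = 0 := fun m hm => by exact_mod_cast hm
  have h1 : algebraMap GaussianInt K (π * star π) = 0 := by rw [map_mul, h0, zero_mul]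
  have h2 : π * star π = ((π.norm : ℤ) : GaussianInt) := (Zsqrtd.norm_eq_mul_conj π).symm
  rw [h2, map_intCast] at h1
  have h3 := hinj _ h1
  have h4 : 0 < π.norm := GaussianInt.norm_pos.2 h.prime.ne_zero
  omega

theorem norm_pi_pos : 0 < ‖algebraMap GaussianInt K π‖ := norm_pos_iff.2 h.pi_ne

/-- elements of norm larger than one -/
theorem inv_le_of_one_lt {x : K} (hx : 1 < ‖x‖) : (‖algebraMap GaussianInt K π‖)⁻¹ ≤ ‖x‖ := by
  have hx0 : x ≠ 0 := by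
    rintro rfl
    rw [norm_zero] at hx
    linarith
  obtain ⟨n, hn⟩ := h.unif x hx0
  rw [hn] at hx ⊢
  have hn' : n < 0 := by
    by_contra hc
    push Not at hc
    exact absurd hx (not_lt.2 (zpow_le_one₀ h.norm_pi_pos h.norm_pi.le hc))
  rw [← zpow_neg_one]
  exact zpow_le_zpow_right_of_le_one₀ h.norm_pi_pos h.norm_pi.le (by omega)

theorem one_lt_inv : 1 < (‖algebraMap GaussianInt K π‖)⁻¹ :=
  (one_lt_inv₀ h.norm_pi_pos).2 h.norm_pi

theorem mem_nb_zero_iff {d : K} (hd : d ≠ 0) {P : E d} :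
    P ∈ nb π d 0 ↔ P = 0 ∨ 1 < ‖nx P‖ := by
  rw [mem_nbh_iff hd]
  apply or_congr_right
  simp only [mul_zero, zero_add, pow_one]
  constructor
  · intro h1
    exact h.one_lt_inv.trans_le h1
  · intro h1
    exact h.inv_le_of_one_lt h1

/-- `nb π d n` is closed under addition (also at the places above 2) -/
theorem nb_add [NeZero (2 : K)] [DecidableEq K] {d : K} (hd : d ≠ 0) (n : ℕ) {P Q : E d}
    (hP : P ∈ nb π d n) (hQ : Q ∈ nb π d n) : P + Q ∈ nb π d n := by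
  have hR : 1 < (‖algebraMap GaussianInt K π‖)⁻¹ ^ (2 * n + 1) :=
    one_lt_pow₀ h.one_lt_inv (by omega)
  rw [mem_nbh_iff hd] at hP hQ ⊢
  set R := (‖algebraMap GaussianInt K π‖)⁻¹ ^ (2 * n + 1) with hRdef
  rcases hP with rfl | hP
  · rw [zero_add]; exact hQ
  rcases hQ with rfl | hQ
  · rw [add_zero]; exact Or.inr hP
  have hP0 : P ≠ 0 := by
    rintro rfl
    rw [nx_zero, norm_zero] at hP
    linarith
  have hQ0 : Q ≠ 0 := by
    rintro rfl
    rw [nx_zero, norm_zero] at hQ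
    linarith
  have h2n : ‖(2 : K)‖ ≤ 1 := h.norm_ofNat_le 2
  by_cases hx : nx P = nx Q
  · rcases (nx_eq_iff hd hP0 hQ0).1 hx with rfl | rfl
    · -- doubling
      right
      have hf : ff (nx P) ≠ 0 := by
        intro h0
        have h1 : ‖nx P ^ 3‖ = ‖nx P‖ := by
          have : nx P ^ 3 = nx P := by
            unfold ff at h0
            linear_combination h0
          rw [this]
        rw [norm_pow] at h1
        nlinarith [norm_nonneg (nx P), sq_nonneg (‖nx P‖)]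
      obtain ⟨-, h1⟩ := nx_double hd hP0 hf
      have h3 := congrArg norm h1
      have hlt : ‖nx P‖ < ‖nx P ^ 3‖ := by
        rw [norm_pow]
        have : 1 < ‖nx P‖ := lt_of_lt_of_le hR hP
        nlinarith [sq_nonneg (‖nx P‖)]
      have h4 : ‖ff (nx P)‖ = ‖nx P‖ ^ 3 := by
        unfold ff
        rw [sub_eq_add_neg, h.norm_sum_eq (by rwa [norm_neg]), norm_pow]
      have h5 : ‖nx P ^ 2 + 1‖ = ‖nx P‖ ^ 2 := by
        rw [h.norm_sum_eq, norm_pow]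
        rw [norm_one, norm_pow]
        have : 1 < ‖nx P‖ := lt_of_lt_of_le hR hP
        nlinarith
      rw [norm_mul, norm_mul, h4, norm_pow, h5] at h3
      have h6 : ‖(4 : K)‖ ≤ 1 := h.norm_ofNat_le 4
      have h7 : 1 < ‖nx P‖ := lt_of_lt_of_le hR hP
      have h8 : 0 < ‖nx P‖ ^ 3 := by positivity
      have h9 : ‖nx P‖ * ‖nx P‖ ^ 3 ≤ ‖nx (P + P)‖ * ‖nx P‖ ^ 3 := by
        calc ‖nx P‖ * ‖nx P‖ ^ 3 = (‖nx P‖ ^ 2) ^ 2 := by ring
          _ = ‖nx (P + P)‖ * (‖(4 : K)‖ * ‖nx P‖ ^ 3) := h3.symm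
          _ ≤ ‖nx (P + P)‖ * (1 * ‖nx P‖ ^ 3) := by gcongr
          _ = _ := by ring
      exact hP.trans (le_of_mul_le_mul_right h9 h8)
    · left; exact neg_add_cancel Q
  · right
    have hs := nx_add_add hd hP0 hQ0 hx
    have hp := nx_add_mul hd hP0 hQ0 hx
    set x := nx P with hxdef
    set y := nx Q with hydef
    set a := nx (P + Q) with ha
    set b := nx (P - Q) with hb
    have hx1 : 1 < ‖x‖ := lt_of_lt_of_le hR hP
    have hy1 : 1 < ‖y‖ := lt_of_lt_of_le hR hQ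
    have hxy1 : 1 < ‖x * y‖ := by rw [norm_mul]; nlinarith
    have hp' : ‖a‖ * ‖b‖ * ‖x - y‖ ^ 2 = (‖x‖ * ‖y‖) ^ 2 := by
      have := congrArg norm hp
      rw [norm_mul, norm_mul, norm_pow, norm_pow, h.norm_sum_eq (by rwa [norm_one]),
        norm_mul] at this
      exact this
    have hs' : ‖a + b‖ * ‖x - y‖ ^ 2 ≤ ‖x‖ * ‖y‖ * ‖x + y‖ := by
      have := congrArg norm hs
      rw [norm_mul, norm_pow] at this
      rw [this, norm_mul, norm_mul, sub_eq_add_neg, h.norm_sum_eq (by rwa [norm_neg, norm_one]),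
        norm_mul]
      have h0 : 0 ≤ ‖x‖ * ‖y‖ * ‖x + y‖ := by positivity
      nlinarith
    have hxy : 0 < ‖x - y‖ := norm_pos_iff.2 (sub_ne_zero.2 hx)
    by_contra hlt
    push Not at hlt
    have hm : ‖a‖ < min ‖x‖ ‖y‖ := lt_of_lt_of_le hlt (le_min hP hQ)
    have ht : ‖x - y‖ ≤ max ‖x‖ ‖y‖ := h.norm_sub_le x y
    have hw : ‖x + y‖ ≤ max ‖x‖ ‖y‖ := h.ultra x y
    have hmM : min ‖x‖ ‖y‖ * max ‖x‖ ‖y‖ = ‖x‖ * ‖y‖ := min_mul_max _ _
    have hM : 0 < max ‖x‖ ‖y‖ := lt_max_of_lt_left (by linarith)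
    have hm0 : 0 < min ‖x‖ ‖y‖ := lt_min (by linarith) (by linarith)
    have ha0 := norm_nonneg a
    have hb0 := norm_nonneg b
    rw [← hmM] at hp' hs'
    set m := min ‖x‖ ‖y‖ with hmdef
    set M := max ‖x‖ ‖y‖ with hMdef
    have haM : ‖a‖ * M < m * M := mul_lt_mul_of_pos_right hm hM
    have hab : ‖a‖ < ‖b‖ := by
      by_contra hc
      push Not at hc
      have e1 : (m * M) ^ 2 ≤ (‖a‖ * M) ^ 2 := by
        rw [← hp']
        calc ‖a‖ * ‖b‖ * ‖x - y‖ ^ 2 ≤ ‖a‖ * ‖a‖ * M ^ 2 := by gcongr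
          _ = (‖a‖ * M) ^ 2 := by ring
      have e2 : (‖a‖ * M) ^ 2 < (m * M) ^ 2 := by
        apply pow_lt_pow_left₀ haM (by positivity) (by norm_num)
      linarith
    have hz : ‖a + b‖ = ‖b‖ := by rw [add_comm]; exact h.norm_sum_eq hab
    rw [hz] at hs'
    have e3 : (m * M) * (m * M) ≤ (m * M) * (‖a‖ * M) := by
      calc (m * M) * (m * M) = ‖a‖ * (‖b‖ * ‖x - y‖ ^ 2) := by rw [← sq, ← hp']; ring
        _ ≤ ‖a‖ * (m * M * ‖x + y‖) := by gcongr
        _ ≤ ‖a‖ * (m * M * M) := by gcongr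
        _ = _ := by ring
    have e4 := le_of_mul_le_mul_left e3 (mul_pos hm0 hM)
    linarith

/-- `nb π d n` is closed under the action of `ℤ[i]` -/
theorem nb_smul [NeZero (2 : K)] [DecidableEq K] (d : Kˣ) (n : ℕ) (α : GaussianInt)
    {P : E (d : K)} (hP : P ∈ nb π (d : K) n) : α • P ∈ nb π (d : K) n := by
  have hd := d.ne_zero
  have hnat : ∀ (k : ℕ) (Q : E (d : K)), Q ∈ nb π (d : K) n → k • Q ∈ nb π (d : K) n := by
    intro k Q hQ
    induction k with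
    | zero => rw [zero_smul]; exact zero_mem_nbh _ _ _
    | succ k ih => rw [add_smul, one_smul]; exact h.nb_add hd n ih hQ
  have hint : ∀ (k : ℤ) (Q : E (d : K)), Q ∈ nb π (d : K) n → k • Q ∈ nb π (d : K) n := by
    intro k Q hQ
    rcases Int.natAbs_eq k with hk | hk
    · rw [hk, natCast_zsmul]; exact hnat _ Q hQ
    · rw [hk, neg_smul, natCast_zsmul]; exact neg_mem_nbh (hnat _ Q hQ)
  have him : im d.ne_zero P ∈ nb π (d : K) n := by
    rw [mem_nbh_iff hd] at hP ⊢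
    rcases hP with rfl | hP
    · left; exact map_zero _
    · right
      have : nx (im d.ne_zero P) = - nx P := by unfold nx; rw [xc_im]; ring
      rwa [this, norm_neg]
  rw [smul_def]
  exact h.nb_add hd n (hint _ _ hP) (hint _ _ him)

/-- the submodule of points near zero -/
def nbS [NeZero (2 : K)] [DecidableEq K] (d : Kˣ) (n : ℕ) : Submodule GaussianInt (E (d : K)) where
  carrier := nb π (d : K) n
  add_mem' := fun ha hb => h.nb_add d.ne_zero n ha hb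
  zero_mem' := zero_mem_nbh _ _ _
  smul_mem' := fun α _ hP => h.nb_smul d n α hP

theorem mem_nbS [NeZero (2 : K)] [DecidableEq K] (d : Kˣ) (n : ℕ) (P : E (d : K)) :
    P ∈ h.nbS d n ↔ P ∈ nb π (d : K) n := Iff.rfl

/-- points with the same residue differ, up to sign, by a point near zero (`π ∤ 2`) -/
theorem res_diff [NeZero (2 : K)] [DecidableEq K] (h2 : ¬ π ∣ 2) {d : K} (hd : d ≠ 0) {P Q : E d}
    (hP : P ≠ 0) (hQ : Q ≠ 0) (hx : ‖nx P‖ ≤ 1) (hy : ‖nx Q‖ ≤ 1) (hxy : ‖nx P - nx Q‖ < 1) :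
    P - Q ∈ nb π d 0 ∨ P + Q ∈ nb π d 0 := by
  rw [h.mem_nb_zero_iff hd, h.mem_nb_zero_iff hd]
  by_cases hne : nx P = nx Q
  · rcases (nx_eq_iff hd hP hQ).1 hne with rfl | rfl
    · left; left; exact sub_self P
    · right; left; exact neg_add_cancel Q
  · have hs := nx_add_add hd hP hQ hne
    have hp := nx_add_mul hd hP hQ hne
    set x := nx P with hxdef
    set y := nx Q with hydef
    set a := nx (P + Q) with ha
    set b := nx (P - Q) with hb
    have ht : 0 < ‖x - y‖ := norm_pos_iff.2 (sub_ne_zero.2 hne)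
    have h2' : ‖(2 : K)‖ = 1 := h.norm_two h2
    by_contra hcon
    push Not at hcon
    obtain ⟨⟨-, hb1⟩, ⟨-, ha1⟩⟩ := hcon
    have ht2 : ‖x - y‖ ^ 2 < 1 := by nlinarith
    have hxy1 : ‖x * y + 1‖ < 1 := by
      by_contra hc
      push Not at hc
      have := congrArg norm hp
      rw [norm_mul, norm_mul, norm_pow, norm_pow] at this
      have h3 : 1 ≤ ‖x * y + 1‖ ^ 2 := one_le_pow₀ hc
      have h4 : ‖a‖ * ‖b‖ ≤ 1 := by nlinarith [norm_nonneg a, norm_nonneg b]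
      have h5 : ‖a‖ * ‖b‖ * ‖x - y‖ ^ 2 ≤ 1 * ‖x - y‖ ^ 2 := by gcongr
      linarith
    have hx1 : ‖x‖ = 1 := by
      apply le_antisymm hx
      by_contra hc
      push Not at hc
      have h3 : ‖x * y‖ < 1 := by rw [norm_mul]; nlinarith [norm_nonneg x, norm_nonneg y]
      have h4 : ‖1 + x * y‖ = ‖(1 : K)‖ := h.norm_sum_eq (by rwa [norm_one])
      rw [add_comm, h4, norm_one] at hxy1
      exact lt_irrefl _ hxy1
    have h3 : ‖x * y - 1‖ = 1 := by
      have : x * y - 1 = -2 + (x * y + 1) := by ring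
      rw [this, h.norm_sum_eq (by rwa [norm_neg, h2']), norm_neg, h2']
    have h4 : ‖x + y‖ = 1 := by
      have : x + y = 2 * x + (y - x) := by ring
      rw [this, h.norm_sum_eq, norm_mul, h2', hx1, one_mul]
      rw [norm_mul, h2', hx1, one_mul, ← neg_sub, norm_neg]
      exact hxy
    have h5 := congrArg norm hs
    rw [norm_mul, norm_mul, norm_mul, norm_pow, h2', h3, h4] at h5
    have h6 : ‖a + b‖ ≤ 1 := (h.ultra a b).trans (max_le ha1 hb1)
    have h7 : ‖a + b‖ * ‖x - y‖ ^ 2 ≤ 1 * ‖x - y‖ ^ 2 := by gcongr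
    linarith

end LHU

section

variable {K : Type} [NormedField K] [Algebra GaussianInt K] {π : GaussianInt}



theorem LHU.hntr (h : LHU K π) : ∃ x : K, 1 < ‖x‖ :=
  ⟨(algebraMap GaussianInt K π)⁻¹, by rw [norm_inv]; exact h.one_lt_inv⟩

theorem LHU.disc1 (h : LHU K π) {x : K} (hx : ‖x‖ < 1) :
    ‖x‖ ≤ ‖algebraMap GaussianInt K π‖ := by
  by_cases hx0 : x = 0
  · rw [hx0, norm_zero]; exact norm_nonneg _
  have h1 : 1 < ‖x⁻¹‖ := by
    rw [norm_inv]; exact (one_lt_inv₀ (norm_pos_iff.2 hx0)).2 hx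
  have h2 := h.inv_le_of_one_lt h1
  rw [norm_inv] at h2
  exact (inv_le_inv₀ h.norm_pi_pos (norm_pos_iff.2 hx0)).1 h2

theorem LHU.norm_nx_sq (h : LHU K π) {d : K} (hd : d ≠ 0) {P : E d} (hP0 : P ≠ 0)
    (hP : P ∈ nb π d 0) : 1 < ‖nx P‖ := ((h.mem_nb_zero_iff hd).1 hP).resolve_left hP0

theorem LHU.xc_ge (h : LHU K π) {d : K} (hd : d ≠ 0) {P : E d} (hP0 : P ≠ 0)
    (hP : P ∈ nb π d 0) : ‖d‖ * ‖algebraMap GaussianInt K π‖⁻¹ ≤ ‖xc P‖ := by
  have h1 := h.inv_le_of_one_lt (h.norm_nx_sq hd hP0 hP)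
  rw [xc_eq hd, norm_mul]
  exact mul_le_mul_of_nonneg_left h1 (norm_nonneg _)

theorem LHU.norm_yc (h : LHU K π) {d : K} (hd : d ≠ 0) {P : E d} (hP0 : P ≠ 0)
    (hP : P ∈ nb π d 0) : xc P ≠ 0 ∧ ‖yc P‖ ^ 2 = ‖xc P‖ ^ 3 := by
  have h1 := h.norm_nx_sq hd hP0 hP
  have hd' : 0 < ‖d‖ := norm_pos_iff.2 hd
  have hx : ‖d‖ < ‖xc P‖ := by
    rw [xc_eq hd, norm_mul]
    exact lt_mul_of_one_lt_right hd' h1
  have hx0 : xc P ≠ 0 := norm_pos_iff.1 (hd'.trans hx)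
  refine ⟨hx0, ?_⟩
  rw [← norm_pow, curve_eq P]
  have hlt : ‖-(d ^ 2 * xc P)‖ < ‖xc P ^ 3‖ := by
    rw [norm_neg, norm_mul, norm_pow, norm_pow]
    have : ‖d‖ ^ 2 < ‖xc P‖ ^ 2 := pow_lt_pow_left₀ hx (norm_nonneg _) two_ne_zero
    calc ‖d‖ ^ 2 * ‖xc P‖ < ‖xc P‖ ^ 2 * ‖xc P‖ :=
          mul_lt_mul_of_pos_right this (norm_pos_iff.2 hx0)
      _ = ‖xc P‖ ^ 3 := by ring
  rw [sub_eq_add_neg, h.norm_sum_eq hlt, norm_pow]

theorem LHU.norm_tt (h : LHU K π) {d : K} (hd : d ≠ 0) {P : E d} (hP0 : P ≠ 0)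
    (hP : P ∈ nb π d 0) : yc P ≠ 0 ∧ ‖tt P‖ ^ 2 * ‖xc P‖ = 1 := by
  obtain ⟨hx0, hy⟩ := h.norm_yc hd hP0 hP
  have hx : 0 < ‖xc P‖ := norm_pos_iff.2 hx0
  have hy0 : yc P ≠ 0 := by
    intro h0
    rw [h0, norm_zero] at hy
    have : 0 < ‖xc P‖ ^ 3 := by positivity
    rw [← hy] at this
    norm_num at this
  refine ⟨hy0, ?_⟩
  unfold tt
  rw [norm_div, div_pow, hy]
  field_simp

theorem LHU.tt_ne (h : LHU K π) {d : K} (hd : d ≠ 0) {P : E d} (hP0 : P ≠ 0)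
    (hP : P ∈ nb π d 0) : tt P ≠ 0 := by
  intro h0
  have := (h.norm_tt hd hP0 hP).2
  rw [h0, norm_zero] at this
  norm_num at this

/-- `|tt|² ≤ |π| / |d|` -/
theorem LHU.tt_sq_le (h : LHU K π) {d : K} (hd : d ≠ 0) {P : E d}
    (hP : P ∈ nb π d 0) : ‖tt P‖ ^ 2 * ‖d‖ ≤ ‖algebraMap GaussianInt K π‖ := by
  by_cases hP0 : P = 0
  · rw [hP0, ftt_zero, norm_zero]
    simp
  have h1 := (h.norm_tt hd hP0 hP).2
  have h2 := h.xc_ge hd hP0 hP
  have h3 := h.norm_pi_pos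
  have h4 : ‖tt P‖ ^ 2 * (‖d‖ * ‖algebraMap GaussianInt K π‖⁻¹) ≤ 1 := by
    rw [← h1]
    exact mul_le_mul_of_nonneg_left h2 (by positivity)
  rw [← mul_assoc, ← div_eq_mul_inv, div_le_one h3] at h4
  exact h4

theorem LHU.mem_nb_iff_tt (h : LHU K π) {d : K} (hd : d ≠ 0) {P : E d}
    (hP : P ∈ nb π d 0) (n : ℕ) : P ∈ nb π d n ↔
      ‖tt P‖ ^ 2 * ‖d‖ ≤ ‖algebraMap GaussianInt K π‖ ^ (2 * n + 1) := by
  have h3 := h.norm_pi_pos
  have hd' : 0 < ‖d‖ := norm_pos_iff.2 hd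
  by_cases hP0 : P = 0
  · rw [hP0, ftt_zero, norm_zero]
    refine ⟨fun _ => ?_, fun _ => zero_mem_nbh _ _ _⟩
    simp
  obtain ⟨-, h1⟩ := h.norm_tt hd hP0 hP
  rw [mem_nbh_iff hd]
  simp only [hP0, false_or]
  have ht : 0 < ‖tt P‖ := norm_pos_iff.2 (h.tt_ne hd hP0 hP)
  have e : ‖nx P‖ = (‖tt P‖ ^ 2 * ‖d‖)⁻¹ := by
    unfold nx
    rw [norm_div, eq_comm, inv_eq_iff_eq_inv, inv_div, eq_div_iff (by
      intro h0; rw [h0, mul_zero] at h1; norm_num at h1)]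
    linear_combination ‖d‖ * h1
  rw [e, inv_pow]
  exact inv_le_inv₀ (by positivity) (by positivity)

end

section

variable {K : Type} [NormedField K] [Algebra GaussianInt K] [NeZero (2 : K)] [DecidableEq K]
  {π : GaussianInt}

omit [NeZero (2 : K)] in
theorem LHU.tt_sum (h : LHU K π) {d : K} (hd : d ≠ 0) {P Q R : E d}
    (hP : P ∈ nb π d 0) (hQ : Q ∈ nb π d 0) (hR : R ∈ nb π d 0) (hP0 : P ≠ 0) (hQ0 : Q ≠ 0)
    (hR0 : R ≠ 0) (hs : P + Q + R = 0) :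
    ‖tt P + tt Q + tt R‖ ≤ ‖algebraMap GaussianInt K π‖ ^ 2 * ‖tt P‖ := by
  obtain ⟨L, c, h1, h2, h3, h4, h5, h6⟩ := line_of_add_eq_zero hP0 hQ0 hR0 hs
  obtain ⟨p2, -⟩ := h.norm_yc hd hP0 hP
  obtain ⟨q2, -⟩ := h.norm_yc hd hQ0 hQ
  obtain ⟨r2, -⟩ := h.norm_yc hd hR0 hR
  obtain ⟨p3, p4⟩ := h.norm_tt hd hP0 hP
  obtain ⟨q3, q4⟩ := h.norm_tt hd hQ0 hQ
  obtain ⟨r3, r4⟩ := h.norm_tt hd hR0 hR
  have hc : c ≠ 0 := by
    rintro rfl
    have : xc P * xc Q * xc R = 0 := by linear_combination h6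
    exact mul_ne_zero (mul_ne_zero p2 q2) r2 this
  have key : tt P + tt Q + tt R = -2 * (d ^ 2 * (L / c)) * (tt P * (tt Q * tt R)) := by
    have hy : yc P * yc Q * yc R ≠ 0 := mul_ne_zero (mul_ne_zero p3 q3) r3
    rw [tt, tt, tt]
    field_simp
    rw [h1, h2, h3]
    linear_combination (-c^3) * h4 * (-1) + (2 * L * c^2) * h5 + (3 * L^2 * c) * h6 + (2 * L * d ^ 2) * h6
  set ϖ := ‖algebraMap GaussianInt K π‖ with hϖ
  have hϖ0 : 0 < ϖ := h.norm_pi_pos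
  have hd' : 0 < ‖d‖ := norm_pos_iff.2 hd
  set r : ℝ := ‖d‖ * ϖ⁻¹ with hr
  have hr0 : 0 < r := by positivity
  have hrP : r ≤ ‖xc P‖ := h.xc_ge hd hP0 hP
  have hrQ : r ≤ ‖xc Q‖ := h.xc_ge hd hQ0 hQ
  have hrR : r ≤ ‖xc R‖ := h.xc_ge hd hR0 hR
  have hcn : 0 < ‖c‖ := norm_pos_iff.2 hc
  have hc2 : ‖c‖ ^ 2 = ‖xc P‖ * ‖xc Q‖ * ‖xc R‖ := by
    rw [← norm_pow, ← h6, norm_mul, norm_mul]
  have bP : ‖xc P‖ ≤ ‖c‖ ^ 2 / r ^ 2 := by
    rw [le_div_iff₀ (by positivity), hc2]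
    have : r * r ≤ ‖xc Q‖ * ‖xc R‖ := mul_le_mul hrQ hrR hr0.le (norm_nonneg _)
    nlinarith [norm_nonneg (xc P)]
  have bQ : ‖xc Q‖ ≤ ‖c‖ ^ 2 / r ^ 2 := by
    rw [le_div_iff₀ (by positivity), hc2]
    have : r * r ≤ ‖xc P‖ * ‖xc R‖ := mul_le_mul hrP hrR hr0.le (norm_nonneg _)
    nlinarith [norm_nonneg (xc Q)]
  have bR : ‖xc R‖ ≤ ‖c‖ ^ 2 / r ^ 2 := by
    rw [le_div_iff₀ (by positivity), hc2]
    have : r * r ≤ ‖xc P‖ * ‖xc Q‖ := mul_le_mul hrP hrQ hr0.le (norm_nonneg _)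
    nlinarith [norm_nonneg (xc R)]
  have bL : ‖L‖ ^ 2 ≤ ‖c‖ ^ 2 / r ^ 2 := by
    rw [← norm_pow]
    have : L ^ 2 = xc P + xc Q + xc R := by linear_combination -h4
    rw [this]
    exact (h.ultra _ _).trans (max_le ((h.ultra _ _).trans (max_le bP bQ)) bR)
  have bLc : ‖L / c‖ ≤ r⁻¹ := by
    rw [norm_div, div_le_iff₀ hcn]
    apply le_of_sq_le_sq _ (by positivity)
    refine bL.trans (le_of_eq ?_)
    field_simp
  have b2 : ‖(-2 : K)‖ ≤ 1 := by
    rw [norm_neg]; exact h.norm_ofNat_le 2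
  have bQR : ‖tt Q‖ * ‖tt R‖ ≤ r⁻¹ := by
    have h1 := h.tt_sq_le hd hQ
    have h2 := h.tt_sq_le hd hR
    have e1 : ‖tt Q‖ ^ 2 ≤ r⁻¹ := by
      rw [hr, mul_inv, inv_inv, inv_mul_eq_div, le_div_iff₀ hd']; exact h1
    have e2 : ‖tt R‖ ^ 2 ≤ r⁻¹ := by
      rw [hr, mul_inv, inv_inv, inv_mul_eq_div, le_div_iff₀ hd']; exact h2
    nlinarith [sq_nonneg (‖tt Q‖ - ‖tt R‖)]
  rw [key, norm_mul, norm_mul, norm_mul (d ^ 2), norm_mul (tt P), norm_mul (tt Q), norm_pow]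
  have ht := norm_nonneg (tt P)
  calc ‖(-2 : K)‖ * (‖d‖ ^ 2 * ‖L / c‖) * (‖tt P‖ * (‖tt Q‖ * ‖tt R‖))
      ≤ 1 * (‖d‖ ^ 2 * r⁻¹) * (‖tt P‖ * r⁻¹) := by gcongr
    _ = ϖ ^ 2 * ‖tt P‖ := by
        rw [hr]; field_simp

theorem LHU.tt_add (h : LHU K π) {d : K} (hd : d ≠ 0) {P Q : E d}
    (hP : P ∈ nb π d 0) (hQ : Q ∈ nb π d 0) :
    ‖tt (P + Q) - tt P - tt Q‖ ≤
      ‖algebraMap GaussianInt K π‖ ^ 2 * min ‖tt P‖ ‖tt Q‖ := by
  by_cases hP0 : P = 0
  · rw [hP0, zero_add, ftt_zero, sub_zero, sub_self, norm_zero]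
    positivity
  by_cases hQ0 : Q = 0
  · rw [hQ0, add_zero, ftt_zero, sub_self, sub_zero, norm_zero]
    positivity
  by_cases hPQ : P + Q = 0
  · have : Q = -P := (neg_eq_of_add_eq_zero_right hPQ).symm
    rw [hPQ, this, ftt_neg, ftt_zero, zero_sub, sub_neg_eq_add, neg_add_cancel, norm_zero]
    positivity
  have hR := neg_mem_nbh (h.nb_add hd 0 hP hQ)
  have h1 := h.tt_sum hd hP hQ hR hP0 hQ0 (neg_ne hPQ) (add_neg_cancel _)
  have h2 := h.tt_sum hd hQ hP hR hQ0 hP0 (neg_ne hPQ) (by rw [add_comm Q P]; exact add_neg_cancel _)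
  rw [ftt_neg] at h1 h2
  have e1 : ‖tt (P + Q) - tt P - tt Q‖ = ‖tt P + tt Q + -tt (P + Q)‖ := by
    rw [← norm_neg]; congr 1; ring
  have e2 : ‖tt (P + Q) - tt P - tt Q‖ = ‖tt Q + tt P + -tt (P + Q)‖ := by
    rw [← norm_neg]; congr 1; ring
  rw [← e1] at h1
  rw [← e2] at h2
  rcases min_choice ‖tt P‖ ‖tt Q‖ with h3 | h3 <;> rw [h3] <;> assumption

theorem LHU.tt_nsmul (h : LHU K π) {d : K} (hd : d ≠ 0) (n : ℕ) {P : E d}
    (hP : P ∈ nb π d 0) : n • P ∈ nb π d 0 ∧ ‖tt (n • P) - n * tt P‖ ≤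
      ‖algebraMap GaussianInt K π‖ ^ 2 * ‖tt P‖ := by
  induction n with
  | zero => simp [zero_mem_nbh]; positivity
  | succ n ih =>
    rw [succ_nsmul]
    refine ⟨h.nb_add hd 0 ih.1 hP, ?_⟩
    have h1 := h.tt_add hd ih.1 hP
    have e : tt (n • P + P) - (n + 1 : ℕ) * tt P = (tt (n • P + P) - tt (n • P) - tt P) +
        (tt (n • P) - n * tt P) := by push_cast; ring
    rw [e]
    refine (h.ultra _ _).trans (max_le (h1.trans ?_) ih.2)
    gcongr
    exact min_le_right _ _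

theorem LHU.tt_zsmul (h : LHU K π) {d : K} (hd : d ≠ 0) (n : ℤ) {P : E d}
    (hP : P ∈ nb π d 0) : n • P ∈ nb π d 0 ∧ ‖tt (n • P) - n * tt P‖ ≤
      ‖algebraMap GaussianInt K π‖ ^ 2 * ‖tt P‖ := by
  obtain ⟨m, rfl | rfl⟩ := n.eq_nat_or_neg
  · rw [natCast_zsmul, Int.cast_natCast]
    exact h.tt_nsmul hd m hP
  · rw [neg_smul, natCast_zsmul, Int.cast_neg, Int.cast_natCast, ftt_neg]
    obtain ⟨h1, h2⟩ := h.tt_nsmul hd m hP
    refine ⟨neg_mem_nbh h1, ?_⟩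
    have e : -tt (m • P) - -(m : K) * tt P = -(tt (m • P) - m * tt P) := by ring
    rw [e, norm_neg]
    exact h2


theorem LHU.tt_smul (h : LHU K π) (d : Kˣ) (α : GaussianInt) {P : E (d : K)}
    (hP : P ∈ nb π (d : K) 0) :
    ‖tt (α • P) - algebraMap GaussianInt K α * tt P‖ ≤
      ‖algebraMap GaussianInt K π‖ ^ 2 * ‖tt P‖ := by
  have hd := d.ne_zero
  have hiP : im hd P ∈ nb π (d : K) 0 := by
    have := h.nb_smul d 0 gi hP
    rwa [gi_smul] at this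
  obtain ⟨h1, h2⟩ := h.tt_zsmul hd α.re hP
  obtain ⟨h3, h4⟩ := h.tt_zsmul hd α.im hiP
  rw [ftt_im] at h4
  have h5 := h.tt_add hd h1 h3
  have hϖ := h.norm_pi
  have hI : ‖II K‖ = 1 := LHU.norm_II K
  rw [norm_mul, hI, one_mul] at h4
  have h6 : ‖tt (α.re • P)‖ ≤ ‖tt P‖ := by
    have e : tt (α.re • P) = (tt (α.re • P) - α.re * tt P) + α.re * tt P := by ring
    rw [e]
    refine (h.ultra _ _).trans (max_le (h2.trans ?_) ?_)
    · have : ‖algebraMap GaussianInt K π‖ ^ 2 ≤ 1 := pow_le_one₀ (norm_nonneg _) hϖ.le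
      exact mul_le_of_le_one_left (norm_nonneg _) this
    · rw [norm_mul]
      exact mul_le_of_le_one_left (norm_nonneg _) (h.norm_intCast_le _)
  rw [smul_def]
  have e : tt (α.re • P + α.im • im hd P) - algebraMap GaussianInt K α * tt P =
      (tt (α.re • P + α.im • im hd P) - tt (α.re • P) - tt (α.im • im hd P)) +
      ((tt (α.re • P) - α.re * tt P) + (tt (α.im • im hd P) - α.im * (II K * tt P))) := by
    rw [LHU.algebraMap_eq]; ring
  rw [e]
  refine (h.ultra _ _).trans (max_le (h5.trans ?_) ((h.ultra _ _).trans (max_le h2 h4)))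
  gcongr
  exact (min_le_left _ _).trans h6

theorem LHU.tt_smul_le (h : LHU K π) (d : Kˣ) (α : GaussianInt) {P : E (d : K)}
    (hP : P ∈ nb π (d : K) 0) : ‖tt (α • P)‖ ≤
      max (‖algebraMap GaussianInt K α‖ * ‖tt P‖) (‖algebraMap GaussianInt K π‖ ^ 2 * ‖tt P‖) := by
  have h1 := h.tt_smul d α hP
  have e : tt (α • P) = algebraMap GaussianInt K α * tt P +
    (tt (α • P) - algebraMap GaussianInt K α * tt P) := by ring
  rw [e, ← norm_mul]
  exact (h.ultra _ _).trans (max_le_max le_rfl h1)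

theorem LHU.tt_smul_eq (h : LHU K π) (d : Kˣ) {α : GaussianInt} {P : E (d : K)}
    (hP0 : P ≠ 0) (hP : P ∈ nb π (d : K) 0)
    (hα : ‖algebraMap GaussianInt K π‖ ^ 2 < ‖algebraMap GaussianInt K α‖) :
    ‖tt (α • P)‖ = ‖algebraMap GaussianInt K α‖ * ‖tt P‖ := by
  have h1 := h.tt_smul d α hP
  have ht : 0 < ‖tt P‖ := norm_pos_iff.2 (h.tt_ne d.ne_zero hP0 hP)
  have e : tt (α • P) = algebraMap GaussianInt K α * tt P +
    (tt (α • P) - algebraMap GaussianInt K α * tt P) := by ring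
  rw [e, h.norm_sum_eq, norm_mul]
  rw [norm_mul]
  exact lt_of_le_of_lt h1 (mul_lt_mul_of_pos_right hα ht)

theorem LHU.tt_pi (h : LHU K π) (d : Kˣ) {P : E (d : K)} (hP : P ∈ nb π (d : K) 0) :
    ‖tt (π • P)‖ = ‖algebraMap GaussianInt K π‖ * ‖tt P‖ := by
  by_cases hP0 : P = 0
  · rw [hP0, smul_zero, ftt_zero, norm_zero, mul_zero]
  · apply h.tt_smul_eq d hP0 hP
    rw [pow_two]
    exact mul_lt_of_lt_one_left h.norm_pi_pos h.norm_pi

theorem LHU.tt_pi_pow (h : LHU K π) (d : Kˣ) {P : E (d : K)} (hP : P ∈ nb π (d : K) 0)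
    (k : ℕ) : ‖tt (π ^ k • P)‖ = ‖algebraMap GaussianInt K π‖ ^ k * ‖tt P‖ := by
  induction k with
  | zero => rw [pow_zero, one_smul, pow_zero, one_mul]
  | succ k ih =>
    rw [pow_succ', mul_smul, h.tt_pi d (h.nb_smul d 0 _ hP), ih]; ring

theorem LHU.tt_coprime (h : LHU K π) (d : Kˣ) {α : GaussianInt} (hα : ¬ π ∣ α)
    {P : E (d : K)} (hP : P ∈ nb π (d : K) 0) : ‖tt (α • P)‖ = ‖tt P‖ := by
  by_cases hP0 : P = 0
  · rw [hP0, smul_zero]
  · have h1 := h.norm_eq_one hα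
    rw [h.tt_smul_eq d hP0 hP, h1, one_mul]
    rw [h1]
    exact pow_lt_one₀ (norm_nonneg _) h.norm_pi two_ne_zero

theorem LHU.nb_le0 (h : LHU K π) {d : K} {n : ℕ} {P : E d} (hP : P ∈ nb π d n) :
    P ∈ nb π d 0 := nbh_anti h.one_lt_inv.le d (Nat.zero_le n) hP

theorem LHU.nb_pi_smul (h : LHU K π) (d : Kˣ) (n : ℕ) {P : E (d : K)}
    (hP : P ∈ nb π (d : K) n) : π • P ∈ nb π (d : K) (n + 1) := by
  have h0 := h.nb_le0 hP
  rw [h.mem_nb_iff_tt d.ne_zero (h.nb_smul d 0 _ h0), h.tt_pi d h0]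
  rw [h.mem_nb_iff_tt d.ne_zero h0] at hP
  calc (‖algebraMap GaussianInt K π‖ * ‖tt P‖) ^ 2 * ‖(d : K)‖ =
      ‖algebraMap GaussianInt K π‖ ^ 2 * (‖tt P‖ ^ 2 * ‖(d : K)‖) := by ring
    _ ≤ ‖algebraMap GaussianInt K π‖ ^ 2 * ‖algebraMap GaussianInt K π‖ ^ (2 * n + 1) := by gcongr
    _ = ‖algebraMap GaussianInt K π‖ ^ (2 * (n + 1) + 1) := by ring

/-- multiplication by an element prime to `π` preserves the level -/
theorem LHU.nb_coprime (h : LHU K π) (d : Kˣ) {n m : ℕ} {α : GaussianInt} (hα : ¬ π ∣ α)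
    {P : E (d : K)} (hP : P ∈ nb π (d : K) n) (hP' : α • P ∈ nb π (d : K) m) :
    P ∈ nb π (d : K) m := by
  have h0 := h.nb_le0 hP
  rw [h.mem_nb_iff_tt d.ne_zero (h.nb_smul d 0 _ h0), h.tt_coprime d hα h0] at hP'
  rwa [h.mem_nb_iff_tt d.ne_zero h0]

/-- `nb 0` is torsion-free -/
theorem LHU.nb_tf (h : LHU K π) (d : Kˣ) {P : E (d : K)} (hP : P ∈ nb π (d : K) 0)
    {α : GaussianInt} (hα : α ≠ 0) (h0 : α • P = 0) : P = 0 := by
  by_contra hP0
  have ht : 0 < ‖tt P‖ := norm_pos_iff.2 (h.tt_ne d.ne_zero hP0 hP)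
  have hfin : FiniteMultiplicity π α := FiniteMultiplicity.of_prime_left h.prime hα
  obtain ⟨β, hβ, hβ'⟩ := hfin.exists_eq_pow_mul_and_not_dvd
  rw [hβ, mul_smul] at h0
  have h1 := h.tt_pi_pow d (h.nb_smul d 0 β hP) (multiplicity π α)
  rw [h0, ftt_zero, norm_zero, h.tt_coprime d hβ' hP] at h1
  have : 0 < ‖algebraMap GaussianInt K π‖ ^ multiplicity π α * ‖tt P‖ := by
    have := h.norm_pi_pos
    positivity
  linarith

omit [NeZero (2 : K)] [DecidableEq K] in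
theorem LHU.nb_exit (h : LHU K π) {d : K} (hd : d ≠ 0) {P : E d} (hP0 : P ≠ 0) :
    ∃ m, P ∉ nb π d m := by
  obtain ⟨n, hn⟩ := pow_unbounded_of_one_lt ‖nx P‖ h.one_lt_inv
  refine ⟨n, fun hm => ?_⟩
  rw [mem_nbh_iff hd] at hm
  have h1 := hm.resolve_left hP0
  have h2 : (‖algebraMap GaussianInt K π‖)⁻¹ ^ n ≤ (‖algebraMap GaussianInt K π‖)⁻¹ ^ (2 * n + 1) :=
    pow_le_pow_right₀ h.one_lt_inv.le (by omega)
  linarith

omit [NeZero (2 : K)] [DecidableEq K] in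
theorem LHU.nb_level (h : LHU K π) {d : K} (hd : d ≠ 0) {P : E d} (hP0 : P ≠ 0) {n : ℕ}
    (hP : P ∈ nb π d n) : ∃ m, n ≤ m ∧ P ∈ nb π d m ∧ P ∉ nb π d (m + 1) := by
  classical
  have hex := h.nb_exit hd hP0
  set k := Nat.find hex with hk
  have h1 : P ∉ nb π d k := Nat.find_spec hex
  have h2 : n < k := by
    by_contra hle
    rw [not_lt] at hle
    exact h1 (nbh_anti h.one_lt_inv.le d hle hP)
  refine ⟨k - 1, by omega, ?_, ?_⟩
  · have := Nat.find_min hex (m := k - 1) (by omega)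
    rwa [not_not] at this
  · rwa [Nat.sub_add_cancel (by omega)]

omit [DecidableEq K] in
theorem LHU.nb_lev (h : LHU K π) {d : K} (hd : d ≠ 0) (n : ℕ) :
    ∃ η ∈ nb π d n, ∃ m, η ∉ nb π d m := by
  have := h.complete
  obtain ⟨P, h1, h2⟩ := exists_small (h.hntr) (‖algebraMap GaussianInt K π‖)⁻¹ hd n
  exact ⟨P, h2, h.nb_exit hd h1⟩

theorem LHU.nb_infinite (h : LHU K π) {d : K} (hd : d ≠ 0) (n : ℕ) :
    (nb π d n).Infinite := by
  obtain ⟨u, rfl⟩ : ∃ u : Kˣ, (u : K) = d := ⟨Units.mk0 d hd, rfl⟩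
  have := h.complete
  obtain ⟨P, h1, h2⟩ := exists_small (h.hntr) (‖algebraMap GaussianInt K π‖)⁻¹ hd n
  have hinj : Function.Injective (fun k : ℕ => (k : GaussianInt) • P) := by
    intro k l hkl
    by_contra hne
    apply h1
    have h3 : ((k : GaussianInt) - l) • P = 0 := by
      rw [sub_smul, sub_eq_zero]; exact hkl
    refine h.nb_tf u (h.nb_le0 h2) ?_ h3
    intro h0
    apply hne
    have : (k : GaussianInt) = l := sub_eq_zero.1 h0
    exact_mod_cast this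
  apply (Set.infinite_range_of_injective hinj).mono
  rintro _ ⟨k, rfl⟩
  exact h.nb_smul u n _ h2


end


section RSD

variable {K : Type} [NormedField K] [Algebra GaussianInt K] {π : GaussianInt}

theorem LHU.isUltra (h : LHU K π) : IsUltrametricDist K :=
  IsUltrametricDist.isUltrametricDist_of_forall_norm_add_le_max_norm h.ultra

theorem LHU.coe_ne (h : LHU K π) {a : GaussianInt} (ha : a ≠ 0) :
    algebraMap GaussianInt K a ≠ 0 := by
  have := h.char0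
  intro h0
  have h1 : algebraMap GaussianInt K (a * star a) = 0 := by
    rw [map_mul, h0, zero_mul]
  have h2 : a * star a = ((Zsqrtd.norm a : ℤ) : GaussianInt) := (Zsqrtd.norm_eq_mul_conj a).symm
  rw [h2, map_intCast, Int.cast_eq_zero] at h1
  exact ha ((GaussianInt.norm_eq_zero).1 h1)

theorem LHU.norm_int_le (h : LHU K π) (n : ℤ) : ‖(n : K)‖ ≤ 1 := by
  have := h.isUltra
  exact IsUltrametricDist.norm_intCast_le_one K n

theorem LHU.norm_coe_le_one (h : LHU K π) (a : GaussianInt) :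
    ‖algebraMap GaussianInt K a‖ ≤ 1 := by
  have hI : ‖II K‖ = 1 := by
    have h1 : ‖II K‖ ^ 2 = 1 := by
      rw [← norm_pow, II_sq, norm_neg, norm_one]
    have h2 : 0 ≤ ‖II K‖ := norm_nonneg _
    nlinarith [sq_nonneg (‖II K‖ - 1)]
  have e : a = ((a.re : ℤ) : GaussianInt) + ((a.im : ℤ) : GaussianInt) * ⟨0, 1⟩ := by
    apply Zsqrtd.ext
    · simp
    · simp
  rw [e, map_add, map_mul, map_intCast, map_intCast]
  refine (h.ultra _ _).trans (max_le (h.norm_int_le _) ?_)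
  rw [norm_mul]
  have h3 : ‖algebraMap GaussianInt K ⟨0, 1⟩‖ = 1 := hI
  rw [h3, mul_one]
  exact h.norm_int_le _

theorem LHU.norm_coe_eq_one (h : LHU K π) {a : GaussianInt} (ha : ¬ π ∣ a) :
    ‖algebraMap GaussianInt K a‖ = 1 := by
  refine le_antisymm (h.norm_coe_le_one a) ?_
  have hirr : Irreducible π := h.prime.irreducible
  obtain ⟨u, v, huv⟩ := (hirr.coprime_iff_not_dvd).2 ha
  have h1 : algebraMap GaussianInt K u * algebraMap GaussianInt K π +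
      algebraMap GaussianInt K v * algebraMap GaussianInt K a = 1 := by
    rw [← map_mul, ← map_mul, ← map_add, huv, map_one]
  have h2 := h.ultra (algebraMap GaussianInt K u * algebraMap GaussianInt K π)
    (algebraMap GaussianInt K v * algebraMap GaussianInt K a)
  rw [h1, norm_one, norm_mul, norm_mul] at h2
  rcases le_max_iff.1 h2 with h3 | h3
  · exfalso
    have h4 : ‖algebraMap GaussianInt K u‖ * ‖algebraMap GaussianInt K π‖ ≤
        1 * ‖algebraMap GaussianInt K π‖ :=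
      mul_le_mul_of_nonneg_right (h.norm_coe_le_one u) (norm_nonneg _)
    have := h.norm_pi
    linarith
  · have h4 : ‖algebraMap GaussianInt K v‖ * ‖algebraMap GaussianInt K a‖ ≤
        1 * ‖algebraMap GaussianInt K a‖ :=
      mul_le_mul_of_nonneg_right (h.norm_coe_le_one v) (norm_nonneg _)
    linarith

theorem LHU.norm_coe_lt_one_iff (h : LHU K π) (a : GaussianInt) :
    ‖algebraMap GaussianInt K a‖ < 1 ↔ π ∣ a := by
  constructor
  · intro h1
    by_contra h2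
    rw [h.norm_coe_eq_one h2] at h1
    exact lt_irrefl _ h1
  · rintro ⟨b, rfl⟩
    rw [map_mul, norm_mul]
    have h1 : ‖algebraMap GaussianInt K π‖ * ‖algebraMap GaussianInt K b‖ ≤
        ‖algebraMap GaussianInt K π‖ * 1 :=
      mul_le_mul_of_nonneg_left (h.norm_coe_le_one b) (norm_nonneg _)
    have := h.norm_pi
    linarith

theorem LHU.norm_coe_le_pow_iff (h : LHU K π) (a : GaussianInt) (n : ℕ) :
    ‖algebraMap GaussianInt K a‖ ≤ ‖algebraMap GaussianInt K π‖ ^ n ↔ π ^ n ∣ a := by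
  have hp := h.norm_pi_pos
  constructor
  · intro h1
    induction n with
    | zero => simp
    | succ n ih =>
      have h2 : ‖algebraMap GaussianInt K π‖ ^ (n + 1) ≤ ‖algebraMap GaussianInt K π‖ ^ n :=
        pow_le_pow_of_le_one hp.le h.norm_pi.le (Nat.le_succ n)
      obtain ⟨b, rfl⟩ := ih (h1.trans h2)
      rw [map_mul, norm_mul, map_pow, norm_pow, pow_succ] at h1
      have h3 : ‖algebraMap GaussianInt K b‖ ≤ ‖algebraMap GaussianInt K π‖ :=
        le_of_mul_le_mul_left h1 (pow_pos hp n)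
      have h4 : π ∣ b := (h.norm_coe_lt_one_iff b).1 (lt_of_le_of_lt h3 h.norm_pi)
      rw [pow_succ]
      exact mul_dvd_mul_left _ h4
  · rintro ⟨b, rfl⟩
    rw [map_mul, norm_mul, map_pow, norm_pow]
    have h1 : ‖algebraMap GaussianInt K π‖ ^ n * ‖algebraMap GaussianInt K b‖ ≤
        ‖algebraMap GaussianInt K π‖ ^ n * 1 :=
      mul_le_mul_of_nonneg_left (h.norm_coe_le_one b) (pow_nonneg hp.le n)
    linarith

/-- discreteness -/
theorem LHU.disc (h : LHU K π) {x : K} {n : ℤ}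
    (hx : ‖x‖ < ‖algebraMap GaussianInt K π‖ ^ n) :
    ‖x‖ ≤ ‖algebraMap GaussianInt K π‖ ^ (n + 1) := by
  have hp := h.norm_pi_pos
  by_cases h0 : x = 0
  · rw [h0, norm_zero]
    exact (zpow_pos hp _).le
  · obtain ⟨m, hm⟩ := h.unif x h0
    rw [hm] at hx ⊢
    have h1 : n < m := (zpow_lt_zpow_iff_right_of_lt_one₀ hp h.norm_pi).1 hx
    exact (zpow_le_zpow_iff_right_of_lt_one₀ hp h.norm_pi).2 (by omega)

/-- Hensel's lemma for square roots -/
theorem LHU.sqrt (h : LHU K π) {x : K} (hx : ‖x - 1‖ < ‖(4 : K)‖) :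
    ∃ y : K, y ^ 2 = x ∧ ‖y - 1‖ * ‖(2 : K)‖ ≤ ‖x - 1‖ := by
  have := h.char0
  have := h.complete
  have h4 : (4 : K) ≠ 0 := by norm_num
  have hn4 : 0 < ‖(4 : K)‖ := norm_pos_iff.2 h4
  set u : K := (x - 1) / 4 with hu
  have hu1 : ‖u‖ < 1 := by
    rw [hu, norm_div, div_lt_one hn4]
    exact hx
  have hxu : x = 1 + 4 * u := by
    rw [hu]; field_simp; ring
  have hu0 : 0 ≤ ‖u‖ := norm_nonneg u
  -- the sequence
  set z : ℕ → K := fun n => Nat.rec (0 : K) (fun _ w => u - w ^ 2) n with hz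
  have hz0 : z 0 = 0 := rfl
  have hzs : ∀ n, z (n + 1) = u - z n ^ 2 := fun n => rfl
  have hzb : ∀ n, ‖z n‖ ≤ ‖u‖ := by
    intro n
    induction n with
    | zero => rw [hz0, norm_zero]; exact hu0
    | succ n ih =>
      rw [hzs, sub_eq_add_neg]
      refine (h.ultra _ _).trans (max_le le_rfl ?_)
      rw [norm_neg, norm_pow]
      calc ‖z n‖ ^ 2 = ‖z n‖ * ‖z n‖ := by ring
        _ ≤ ‖u‖ * 1 := mul_le_mul ih (ih.trans hu1.le) (norm_nonneg _) hu0
        _ = ‖u‖ := mul_one _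
  have hzc : ∀ n, ‖z n - z (n + 1)‖ ≤ 1 * ‖u‖ ^ n := by
    intro n
    induction n with
    | zero =>
      rw [hzs, hz0]
      simp only [pow_zero, mul_one]
      have : ‖(0 : K) - (u - 0 ^ 2)‖ = ‖u‖ := by
        rw [zero_sub, norm_neg]; simp
      rw [this]
      exact hu1.le
    | succ n ih =>
      rw [hzs (n + 1), hzs n]
      have e : u - z n ^ 2 - (u - (u - z n ^ 2) ^ 2) = -((z n - z (n + 1)) * (z n + z (n + 1))) := by
        rw [hzs n]; ring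
      rw [e, norm_neg, norm_mul]
      have h1 : ‖z n + z (n + 1)‖ ≤ ‖u‖ := (h.ultra _ _).trans (max_le (hzb n) (hzb (n + 1)))
      calc ‖z n - z (n + 1)‖ * ‖z n + z (n + 1)‖ ≤ (1 * ‖u‖ ^ n) * ‖u‖ :=
            mul_le_mul ih h1 (norm_nonneg _) (by positivity)
        _ = 1 * ‖u‖ ^ (n + 1) := by ring
  have hcau : CauchySeq z := by
    refine cauchySeq_of_le_geometric ‖u‖ 1 hu1 fun n => ?_
    rw [dist_eq_norm]
    exact hzc n
  obtain ⟨w, hw⟩ := cauchySeq_tendsto_of_complete hcau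
  have hw1 : w = u - w ^ 2 := by
    have h1 : Filter.Tendsto (fun n => z (n + 1)) Filter.atTop (nhds w) :=
      hw.comp (Filter.tendsto_add_atTop_nat 1)
    have h2 : Filter.Tendsto (fun n => z (n + 1)) Filter.atTop (nhds (u - w ^ 2)) := by
      have h3 : Filter.Tendsto (fun n => u - z n ^ 2) Filter.atTop (nhds (u - w ^ 2)) :=
        tendsto_const_nhds.sub (hw.pow 2)
      exact h3
    exact tendsto_nhds_unique h1 h2
  have hwb : ‖w‖ ≤ ‖u‖ := le_of_tendsto hw.norm (Filter.Eventually.of_forall hzb)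
  refine ⟨1 + 2 * w, ?_, ?_⟩
  · rw [hxu]
    linear_combination 4 * hw1
  · have e1 : (1 + 2 * w) - 1 = 2 * w := by ring
    have e2 : x - 1 = 4 * u := by rw [hxu]; ring
    have e3 : ‖(4 : K)‖ = ‖(2 : K)‖ * ‖(2 : K)‖ := by
      rw [← norm_mul]; norm_num
    rw [e1, e2, norm_mul, norm_mul, e3]
    have h1 : ‖(2 : K)‖ * ‖w‖ ≤ ‖(2 : K)‖ * ‖u‖ := mul_le_mul_of_nonneg_left hwb (norm_nonneg _)
    have h2 := mul_le_mul_of_nonneg_right h1 (norm_nonneg (2 : K))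
    linarith

theorem LHU.mk_eq_iff (h : LHU K π) (a b : GaussianInt) :
    (Ideal.Quotient.mk (Ideal.span {π}) a = Ideal.Quotient.mk _ b) ↔
      ‖algebraMap GaussianInt K a - algebraMap GaussianInt K b‖ < 1 := by
  rw [Ideal.Quotient.eq, Ideal.mem_span_singleton, ← h.norm_coe_lt_one_iff, map_sub]

end RSD


section RESB

variable {K : Type} [NormedField K] [Algebra GaussianInt K] [NeZero (2 : K)] [DecidableEq K]
  {π : GaussianInt}

omit [NeZero (2 : K)] [DecidableEq K] in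
private theorem disc' (h : LHU K π) {x : K} (hx : ‖x‖ < 1) :
    ‖x‖ ≤ ‖algebraMap GaussianInt K π‖ := by
  by_cases hx0 : x = 0
  · rw [hx0, norm_zero]; exact norm_nonneg _
  obtain ⟨n, hn⟩ := h.unif x hx0
  rw [hn] at hx ⊢
  have hn' : 0 < n := by
    by_contra hc
    push Not at hc
    have h1 : 1 ≤ ‖algebraMap GaussianInt K π‖ ^ n :=
      one_le_zpow_of_nonpos₀ h.norm_pi_pos h.norm_pi.le hc
    linarith
  calc ‖algebraMap GaussianInt K π‖ ^ n ≤ ‖algebraMap GaussianInt K π‖ ^ (1 : ℤ) :=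
        zpow_le_zpow_right_of_le_one₀ h.norm_pi_pos h.norm_pi.le (by omega)
    _ = _ := zpow_one _

omit [NeZero (2 : K)] [DecidableEq K] in
theorem LHU.not_mem_nb_iff (h : LHU K π) {d : K} (hd : d ≠ 0) {P : E d} :
    P ∉ nb π d 0 ↔ P ≠ 0 ∧ ‖nx P‖ ≤ 1 := by
  rw [h.mem_nb_zero_iff hd]
  push Not
  rfl

omit [NeZero (2 : K)] [DecidableEq K] in
private theorem not_nb' (h : LHU K π) {d : K} (hd : d ≠ 0) {P : E d} (hP : P ∉ nb π d 0) :
    P ≠ 0 ∧ ‖nx P‖ ≤ 1 := by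
  rw [h.mem_nb_zero_iff hd] at hP
  push Not at hP
  exact hP

theorem LHU.near_T_iff (h : LHU K π) (hodd : ¬ π ∣ 2) {d : K} (hd : d ≠ 0) {P : E d}
    (hP : P ≠ 0) (n : ℕ) : P - T hd ∈ nb π d n ↔
      ‖nx P - 1‖ ≤ ‖algebraMap GaussianInt K π‖ ^ (2 * n + 1) := by
  have hp0 := h.norm_pi_pos
  have hlt : ‖algebraMap GaussianInt K π‖ ^ (2 * n + 1) < 1 :=
    pow_lt_one₀ hp0.le h.norm_pi (by omega)
  have hpp : 0 < ‖algebraMap GaussianInt K π‖ ^ (2 * n + 1) := pow_pos hp0 _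
  have h2 := h.norm_two hodd
  by_cases hx : nx P = 1
  · have hPT : P = T hd := by
      rcases (nx_eq_iff hd hP (T_ne hd)).1 (by rw [hx, nx_T]) with h1 | h1
      · exact h1
      · rw [h1, neg_T]
    have e1 : P - T hd = 0 := by rw [hPT]; exact sub_self _
    rw [e1, hx, sub_self, norm_zero]
    exact ⟨fun _ => hpp.le, fun _ => zero_mem_nbh _ _ _⟩
  · obtain ⟨hne, hnx⟩ := nx_add_T hd hP hx
    have e1 : P - T hd = P + T hd := by rw [sub_eq_add_neg, neg_T]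
    rw [e1, mem_nbh_iff hd, or_iff_right hne, hnx, norm_div, inv_pow]
    have hx1 : 0 < ‖nx P - 1‖ := norm_pos_iff.2 (sub_ne_zero.2 hx)
    rw [le_div_iff₀ hx1, inv_mul_le_iff₀ hpp]
    have e2 : nx P + 1 = 2 + (nx P - 1) := by ring
    have key : ‖nx P - 1‖ < 1 → ‖nx P + 1‖ = 1 := by
      intro h1
      rw [e2, h.norm_sum_eq (by rwa [h2]), h2]
    constructor
    · intro h1
      by_cases h3 : ‖nx P - 1‖ < 1
      · rw [key h3, mul_one] at h1
        exact h1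
      · exfalso
        push Not at h3
        have h4 : ‖nx P + 1‖ ≤ ‖nx P - 1‖ := by
          rw [e2]
          refine (h.ultra _ _).trans ?_
          rw [h2]
          exact max_le h3 le_rfl
        nlinarith [norm_nonneg (nx P + 1)]
    · intro h1
      rw [key (lt_of_le_of_lt h1 hlt), mul_one]
      exact h1

theorem LHU.near_T₀_iff (h : LHU K π) {d : K} (hd : d ≠ 0) {P : E d}
    (hP : P ≠ 0) (n : ℕ) : P - T₀ hd ∈ nb π d n ↔
      ‖nx P‖ ≤ ‖algebraMap GaussianInt K π‖ ^ (2 * n + 1) := by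
  have hp0 := h.norm_pi_pos
  have hpp : 0 < ‖algebraMap GaussianInt K π‖ ^ (2 * n + 1) := pow_pos hp0 _
  by_cases hx : nx P = 0
  · have hPT : P = T₀ hd := by
      rcases (nx_eq_iff hd hP (T₀_ne hd)).1 (by rw [hx, nx_T₀]) with h1 | h1
      · exact h1
      · rw [h1, neg_T₀]
    have e1 : P - T₀ hd = 0 := by rw [hPT]; exact sub_self _
    rw [e1, hx, norm_zero]
    exact ⟨fun _ => hpp.le, fun _ => zero_mem_nbh _ _ _⟩
  · obtain ⟨hne, hnx⟩ := nx_add_T₀ hd hP hx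
    have e1 : P - T₀ hd = P + T₀ hd := by rw [sub_eq_add_neg, neg_T₀]
    have hx1 : 0 < ‖nx P‖ := norm_pos_iff.2 hx
    rw [e1, mem_nbh_iff hd, or_iff_right hne, hnx, norm_div, norm_neg, norm_one, inv_pow,
      le_div_iff₀ hx1, inv_mul_le_iff₀ hpp, mul_one]

theorem LHU.near_giT_iff (h : LHU K π) (hodd : ¬ π ∣ 2) (d : Kˣ) {P : E (d : K)}
    (hP : P ≠ 0) (n : ℕ) : P - gi • T d.ne_zero ∈ nb π (d : K) n ↔
      ‖nx P + 1‖ ≤ ‖algebraMap GaussianInt K π‖ ^ (2 * n + 1) := by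
  have hd := d.ne_zero
  have hgi : gi * gi = -1 := by decide
  have key : ∀ R : E (d : K), gi • R ∈ nb π (d : K) n ↔ R ∈ nb π (d : K) n := by
    intro R
    constructor
    · intro h1
      have h2 := h.nb_smul d n (-gi) h1
      rw [smul_smul] at h2
      have h3 : -gi * gi = 1 := by rw [neg_mul, hgi, neg_neg]
      rwa [h3, one_smul] at h2
    · intro h1
      exact h.nb_smul d n gi h1
  rw [← key]
  have e1 : gi • (P - gi • T d.ne_zero) = gi • P - T d.ne_zero := by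
    rw [smul_sub, smul_smul, hgi, neg_smul, one_smul]
    rw [neg_T]
  rw [e1, h.near_T_iff hodd hd (gi_smul_ne d hP) n, nx_gi_smul]
  have e2 : - nx P - 1 = -(nx P + 1) := by ring
  rw [e2, norm_neg]

theorem LHU.res_conv (h : LHU K π) (hodd : ¬ π ∣ 2) {d : K} (hd : d ≠ 0) {P Q : E d}
    (hP : P ∉ nb π d 0) (hPQ : Q - P ∈ nb π d 0) :
    Q ≠ 0 ∧ ‖nx P‖ ≤ 1 ∧ ‖nx Q‖ ≤ 1 ∧ ‖nx Q - nx P‖ < 1 := by
  have _ := hodd
  obtain ⟨hP0, hx⟩ := not_nb' h hd hP
  set η := Q - P with hη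
  have hQ : Q = P + η := by rw [hη]; exact (add_sub_cancel P Q).symm
  have hQn : Q ∉ nb π d 0 := by
    intro hc
    apply hP
    have e : P = Q + -η := by rw [hQ]; exact (add_neg_cancel_right P η).symm
    rw [e]
    exact h.nb_add hd 0 hc (neg_mem_nbh hPQ)
  obtain ⟨hQ0, hxQ⟩ := not_nb' h hd hQn
  refine ⟨hQ0, hx, hxQ, ?_⟩
  by_cases hη0 : η = 0
  · rw [hQ, hη0, add_zero, sub_self, norm_zero]; exact one_pos
  have ha : 1 < ‖nx η‖ := by
    rcases (h.mem_nb_zero_iff hd).1 hPQ with h1 | h1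
    · exact absurd h1 hη0
    · exact h1
  have hne : nx P ≠ nx η := by
    intro hc
    rw [hc] at hx
    linarith
  obtain ⟨-, hch⟩ := nx_add hd hP0 hη0 hne
  rw [← hQ] at hch
  set x := nx P with hxd
  set a := nx η with had
  set w := yc P * yc η / d ^ 3 with hw
  have hw2 : w ^ 2 = ff x * ff a := by
    rw [hw, div_pow, mul_pow, yc_sq_nx hd, yc_sq_nx hd]
    field_simp
    rfl
  have hden : ‖x - a‖ = ‖a‖ := by
    have : x - a = -a + x := by ring
    rw [this, h.norm_sum_eq (by rw [norm_neg]; exact lt_of_le_of_lt hx ha), norm_neg]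
  have hfx : ‖ff x‖ ≤ 1 := by
    unfold ff
    refine (h.norm_sub_le _ _).trans (max_le ?_ hx)
    rw [norm_pow]
    exact pow_le_one₀ (norm_nonneg _) hx
  have hfa : ‖ff a‖ ≤ ‖a‖ ^ 3 := by
    unfold ff
    refine (h.norm_sub_le _ _).trans (max_le ?_ ?_)
    · rw [norm_pow]
    · exact le_self_pow₀ ha.le (by norm_num)
  have hwn : ‖w‖ ^ 2 ≤ ‖a‖ ^ 3 := by
    rw [← norm_pow, hw2, norm_mul]
    calc ‖ff x‖ * ‖ff a‖ ≤ 1 * ‖a‖ ^ 3 := by gcongr
      _ = _ := one_mul _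
  have hwlt : ‖w‖ < ‖a‖ ^ 2 := by
    by_contra hc
    push Not at hc
    have h1 : (‖a‖ ^ 2) ^ 2 ≤ ‖w‖ ^ 2 := by gcongr
    have h2 : ‖a‖ ^ 3 < ‖a‖ ^ 4 := pow_lt_pow_right₀ ha (by norm_num)
    nlinarith
  have halt : ‖a‖ < ‖a‖ ^ 2 := by nlinarith
  have h1lt : 1 < ‖a‖ ^ 2 := by nlinarith
  have hnum : (nx Q - x) * (x - a) ^ 2 = 3 * x ^ 2 * a - x - a - x ^ 3 - 2 * w := by
    linear_combination hch
  have hnn : ‖3 * x ^ 2 * a - x - a - x ^ 3 - 2 * w‖ < ‖a‖ ^ 2 := by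
    have n3 : ‖(3 : K)‖ ≤ 1 := h.norm_ofNat_le 3
    have n2 : ‖(2 : K)‖ ≤ 1 := h.norm_ofNat_le 2
    have hx2 : ‖x‖ ^ 2 ≤ 1 := pow_le_one₀ (norm_nonneg _) hx
    have hx3 : ‖x‖ ^ 3 ≤ 1 := pow_le_one₀ (norm_nonneg _) hx
    refine lt_of_le_of_lt (h.norm_sub_le _ _) (max_lt ?_ ?_)
    · refine lt_of_le_of_lt (h.norm_sub_le _ _) (max_lt ?_ ?_)
      · refine lt_of_le_of_lt (h.norm_sub_le _ _) (max_lt ?_ halt)
        refine lt_of_le_of_lt (h.norm_sub_le _ _) (max_lt ?_ (lt_of_le_of_lt hx h1lt))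
        rw [norm_mul, norm_mul, norm_pow]
        calc ‖(3 : K)‖ * ‖x‖ ^ 2 * ‖a‖ ≤ 1 * 1 * ‖a‖ := by gcongr
          _ = ‖a‖ := by ring
          _ < _ := halt
      · rw [norm_pow]
        exact lt_of_le_of_lt hx3 h1lt
    · rw [norm_mul]
      calc ‖(2 : K)‖ * ‖w‖ ≤ 1 * ‖w‖ := by gcongr
        _ = ‖w‖ := one_mul _
        _ < _ := hwlt
  rw [← hnum, norm_mul, norm_pow, hden] at hnn
  by_contra hc
  push Not at hc
  have : 1 * ‖a‖ ^ 2 ≤ ‖nx Q - x‖ * ‖a‖ ^ 2 := by gcongr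
  linarith

/-- away from the nodes `d` is a unit times a square -/
theorem LHU.node_or (h : LHU K π) (hodd : ¬ π ∣ 2) (d : Kˣ) (P : E (d : K)) :
    (∃ κ : GaussianInt, P - κ • T d.ne_zero ∈ nb π (d : K) 0) ∨
      (P ≠ 0 ∧ ‖nx P‖ = 1 ∧ ‖nx P - 1‖ = 1 ∧ ‖nx P + 1‖ = 1 ∧
        ∃ n : ℤ, ‖(d : K)‖ = ‖algebraMap GaussianInt K π‖ ^ (2 * n)) := by
  have hd := d.ne_zero
  by_cases hP : P ∈ nb π (d : K) 0
  · left
    refine ⟨0, ?_⟩
    rw [zero_smul, sub_zero]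
    exact hP
  obtain ⟨hP0, hx⟩ := not_nb' h hd hP
  by_cases h0 : ‖nx P‖ < 1
  · left
    refine ⟨lam, ?_⟩
    rw [lam_smul_T, h.near_T₀_iff hd hP0]
    rw [mul_zero, zero_add, pow_one]
    exact disc' h h0
  by_cases h1 : ‖nx P - 1‖ < 1
  · left
    refine ⟨1, ?_⟩
    rw [one_smul, h.near_T_iff hodd hd hP0]
    rw [mul_zero, zero_add, pow_one]
    exact disc' h h1
  by_cases h2 : ‖nx P + 1‖ < 1
  · left
    refine ⟨gi, ?_⟩
    rw [h.near_giT_iff hodd d hP0]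
    rw [mul_zero, zero_add, pow_one]
    exact disc' h h2
  right
  push Not at h0 h1 h2
  have e0 : ‖nx P‖ = 1 := le_antisymm hx h0
  have e1 : ‖nx P - 1‖ = 1 := by
    refine le_antisymm ((h.norm_sub_le _ _).trans ?_) h1
    rw [norm_one]; exact max_le hx le_rfl
  have e2 : ‖nx P + 1‖ = 1 := by
    refine le_antisymm ((h.ultra _ _).trans ?_) h2
    rw [norm_one]; exact max_le hx le_rfl
  refine ⟨hP0, e0, e1, e2, ?_⟩
  have hf : ‖ff (nx P)‖ = 1 := by
    have : ff (nx P) = nx P * (nx P - 1) * (nx P + 1) := by unfold ff; ring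
    rw [this, norm_mul, norm_mul, e0, e1, e2]; norm_num
  have hs := congrArg norm (sq_ff_nx hd P)
  rw [norm_pow, norm_mul, hf, mul_one] at hs
  have hne : yc P / (d : K) ≠ 0 := by
    intro hc
    rw [hc, norm_zero] at hs
    have : 0 < ‖(d : K)‖ := norm_pos_iff.2 hd
    rw [← hs] at this
    norm_num at this
  obtain ⟨m, hm⟩ := h.unif _ hne
  refine ⟨m, ?_⟩
  rw [← hs, hm, ← zpow_natCast, ← zpow_mul, mul_comm]
  rfl

theorem LHU.T_not_mem (h : LHU K π) (d : Kˣ) : T d.ne_zero ∉ nb π (d : K) 0 ∧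
    T₀ d.ne_zero ∉ nb π (d : K) 0 ∧ gi • T d.ne_zero ∉ nb π (d : K) 0 := by
  have hd := d.ne_zero
  refine ⟨?_, ?_, ?_⟩
  · rw [h.mem_nb_zero_iff hd]
    rintro (h1 | h1)
    · exact T_ne hd h1
    · rw [nx_T, norm_one] at h1
      exact lt_irrefl _ h1
  · rw [h.mem_nb_zero_iff hd]
    rintro (h1 | h1)
    · exact T₀_ne hd h1
    · rw [nx_T₀, norm_zero] at h1
      linarith
  · rw [h.mem_nb_zero_iff hd]
    rintro (h1 | h1)
    · exact gi_smul_ne d (T_ne hd) h1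
    · rw [nx_gi_T, norm_neg, norm_one] at h1
      exact lt_irrefl _ h1


end RESB

end GWA
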