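import Pool.Agent.Helper66.TU.Base
import Pool.Agent.Helper10.GWA.Alg
import Pool.Agent.Helper10.GWA.Mul
import Pool.Agent.Helper10.GWA.GCard

/-!
# Single places of arbitrary residue degree: definitions
-/

namespace GWA

/-- `r` is the residue map of `K` onto the field `k` (on the ring `‖x‖ ≤ 1`) -/
structure RMap (K : Type) [NormedField K] [Algebra GaussianInt K] (k : Type) [Field k]
    [Algebra GaussianInt k] (r : K → k) : Prop where
  add : ∀ x y : K, ‖x‖ ≤ 1 → ‖y‖ ≤ 1 → r (x + y) = r x + r y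
  mul : ∀ x y : K, ‖x‖ ≤ 1 → ‖y‖ ≤ 1 → r (x * y) = r x * r y
  eq_zero : ∀ x : K, ‖x‖ ≤ 1 → (r x = 0 ↔ ‖x‖ < 1)
  surj : ∀ c : k, ∃ x : K, ‖x‖ ≤ 1 ∧ r x = c
  coe : ∀ a : GaussianInt, r (algebraMap GaussianInt K a) = algebraMap GaussianInt k a

/-- Predicates on the triples `(d, P, Q)` which are closed, stable under all affine maps, under
rescaling and under the involution, and which contain the triples `(d, P, 0)`. -/
structure MSt {K : Type} [NormedField K] [Algebra GaussianInt K] [NeZero (2 : K)] [DecidableEq K]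
    (π : GaussianInt) (A : (d : Kˣ) → E (d : K) → E (d : K) → Prop) : Prop where
  cl : ∀ (d : Kˣ) (P Q : E (d : K)), (∀ n, ∃ P' Q' : E (d : K), A d P' Q' ∧
    P' - P ∈ nb π (d : K) n ∧ Q' - Q ∈ nb π (d : K) n) → A d P Q
  aff : ∀ (α β γ δ κ μ : GaussianInt) (d : Kˣ) (P Q : E (d : K)), A d P Q →
    A d (α • P + β • Q + κ • T d.ne_zero) (γ • P + δ • Q + μ • T d.ne_zero)
  sig : ∀ (d : Kˣ) (P Q : E (d : K)) (d' : Kˣ) (P' Q' : E (d' : K)),
    SRel ⟨d, P, Q⟩ ⟨d', P', Q'⟩ → A d P Q → A d' P' Q'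
  scale : ∀ (d e : Kˣ) (s : K) (hs : s ≠ 0) (h : RingHom.id K (d : K) = (e : K) * s ^ 2)
    (P Q : E (d : K)), A d P Q →
    A e (tr (RingHom.id K) hs e.ne_zero h P) (tr (RingHom.id K) hs e.ne_zero h Q)
  base : ∀ (d : Kˣ) (P : E (d : K)), A d P 0

/-- the digit of level `n` of a point of `nb n` (for `‖d‖ = 1`) -/
def dg {K : Type} [NormedField K] [Algebra GaussianInt K] {k : Type} (r : K → k)
    (π : GaussianInt) {d : K} (n : ℕ) (P : E d) : k :=
  r (tt P / algebraMap GaussianInt K π ^ (n + 1))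

/-- `P` is a point with `x(P)` integral, not near the 2-torsion points, and `3 x(P) - 1` a unit -/
def Ord {K : Type} [NormedField K] {d : K} (P : E d) : Prop :=
  ‖nx P‖ ≤ 1 ∧ ‖ff (nx P)‖ = 1 ∧ ‖3 * nx P - 1‖ = 1

section qm

variable {K : Type} [NormedField K] [Algebra GaussianInt K] {π : GaussianInt}
  [NeZero (2 : K)] [DecidableEq K]

/-- the quotient of the group of points by the points near zero -/
abbrev LHU.QM (h : LHU K π) (d : Kˣ) : Type := E (d : K) ⧸ h.nbS d 0

/-- `g` generates the group of points modulo `nb 0`, is killed by `n`, and its annihilator modulo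
`nb 0` is generated by `n`; `n` is prime to `π` -/
structure Gen (π : GaussianInt) (d : Kˣ) (g : E (d : K)) (n : GaussianInt) : Prop where
  ne : n ≠ 0
  ndvd : ¬ π ∣ n
  tors : n • g = 0
  gen : ∀ P : E (d : K), ∃ α : GaussianInt, P - α • g ∈ nb π (d : K) 0
  mem : ∀ α : GaussianInt, α • g ∈ nb π (d : K) 0 ↔ n ∣ α

/-- the values `3 x - 1` at the generators span the residue field over `ℤ[i]` -/
def SpanTop {k : Type} [Field k] [Algebra GaussianInt k] (r : K → k) (d : Kˣ) (g : E (d : K))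
    (n : GaussianInt) : Prop :=
  Submodule.span GaussianInt {c : k | ∃ u v : GaussianInt, n ∣ u * v - 1 ∧ Ord (u • g) ∧
    c = r (3 * nx (u • g) - 1)} = ⊤

end qm

end GWA
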